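import Pool.Agent.TH844.DL.Defs

/-!
# DL-ARCH: bound of one term of the series, and of the weight (MP_60829e_nt, job of helper844)
-/

set_option autoImplicit false

open Polynomial Pool.Agent.H337R2

namespace Pool.Agent.TH844.DL

namespace Ent

/-! ### the weight -/

lemma psi_sub_ge {x y : ℝ} (hx : 0 < x) (hy : 0 < y) : (y - x) * Real.log x ≤ Psi y - Psi x := by
  unfold Psi
  have h1 : Real.log (x / y) ≤ x / y - 1 := Real.log_le_sub_one_of_pos (div_pos hx hy)
  rw [Real.log_div hx.ne' hy.ne'] at h1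
  have h2 : y * (Real.log x - Real.log y) ≤ y * (x / y - 1) := mul_le_mul_of_nonneg_left h1 hy.le
  have h3 : y * (x / y - 1) = x - y := by field_simp
  rw [h3] at h2
  nlinarith

lemma sum_up (s : ℝ) (hs : 1 ≤ s) (n : ℕ) :
    ∑ i ∈ Finset.range n, Real.log (s + i) ≤ Psi (s + n) - Psi s := by
  induction n with
  | zero => simp
  | succ n ih =>
    rw [Finset.sum_range_succ]
    have h := psi_sub_ge (x := s + n) (y := s + (n + 1 : ℕ)) (by positivity) (by positivity)
    have h2 : s + ((n + 1 : ℕ) : ℝ) - (s + n) = 1 := by push_cast; ring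
    rw [h2, one_mul] at h
    linarith

lemma sum_lo (s : ℝ) (hs : 1 ≤ s) (n m : ℕ) :
    Psi (s + (n + m : ℕ)) - Psi (s + n) ≤ ∑ k ∈ Finset.Icc n (n + m), Real.log (s + k) := by
  induction m with
  | zero =>
    simp only [add_zero, sub_self, Finset.Icc_self, Finset.sum_singleton]
    apply Real.log_nonneg
    have : (0 : ℝ) ≤ n := by positivity
    linarith
  | succ m ih =>
    rw [← add_assoc, Finset.sum_Icc_succ_top (by omega)]
    have h := psi_sub_ge (x := s + (n + m + 1 : ℕ)) (y := s + (n + m : ℕ)) (by positivity)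
      (by positivity)
    have h2 : s + ((n + m : ℕ) : ℝ) - (s + ((n + m + 1 : ℕ) : ℝ)) = -1 := by push_cast; ring
    rw [h2] at h
    linarith

lemma psi_scale {n : ℝ} (hn : 0 < n) {z : ℝ} (hz : 0 < z) :
    Psi (n * z) = n * Psi z + n * z * Real.log n := by
  unfold Psi
  rw [Real.log_mul hn.ne' hz.ne']
  ring

lemma wt_pos (a b : ℕ) {x : ℝ} (hx : 1 ≤ x) : 0 < wt a b x := by
  unfold wt
  apply div_pos
  · exact Finset.prod_pos fun i _ => by positivity
  · exact Finset.prod_pos fun i _ => by positivity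

end Ent

open Ent in
theorem A_weight : S_weight := by
  refine ⟨1, one_pos, fun n hn s hs => ⟨wt_pos _ _ hs, ?_⟩⟩
  have hn0 : (0 : ℝ) < n := by exact_mod_cast hn
  have hs0 : 0 < s := by linarith
  have h1 : Real.log (wt n (5 * n) s) = ∑ i ∈ Finset.range n, Real.log (s + i) -
      ∑ k ∈ Finset.Icc n (5 * n), Real.log (s + k) := by
    unfold wt
    rw [Real.log_div, Real.log_prod, Real.log_prod]
    · intro i _; positivity
    · intro i _; positivity
    · exact (Finset.prod_pos fun i _ => by positivity).ne'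
    · exact (Finset.prod_pos fun i _ => by positivity).ne'
  have h2 := sum_up s hs n
  have h3 := sum_lo s hs n (4 * n)
  have h4 : n + 4 * n = 5 * n := by ring
  rw [h4] at h3
  have e1 : Psi s = n * Psi (s / n) + s * Real.log n := by
    have := psi_scale hn0 (div_pos hs0 hn0)
    rwa [mul_div_cancel₀ _ hn0.ne'] at this
  have e2 : Psi (s + n) = n * Psi (s / n + 1) + (s + n) * Real.log n := by
    have := psi_scale hn0 (show 0 < s / n + 1 by positivity)
    rwa [mul_add, mul_div_cancel₀ _ hn0.ne', mul_one] at this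
  have e3 : Psi (s + (5 * n : ℕ)) = n * Psi (s / n + 5) + (s + 5 * n) * Real.log n := by
    have := psi_scale hn0 (show 0 < s / n + 5 by positivity)
    rw [mul_add, mul_div_cancel₀ _ hn0.ne'] at this
    rw [show s + ((5 * n : ℕ) : ℝ) = s + n * 5 by push_cast; ring, this]
    ring
  have h5 : 0 ≤ Real.log (n + s) := Real.log_nonneg (by linarith)
  rw [h1]
  unfold Ph
  rw [e2] at h2 h3
  rw [e1] at h2
  rw [e3] at h3
  nlinarith

namespace Ent

/-! ### the terms -/

lemma prod_deriv (S : Finset ℕ) {x : ℝ} (hx : 1 ≤ x) :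
    0 < ∏ i ∈ S, (x + (i : ℝ)) ∧ ∃ d : ℝ, HasDerivAt (fun t : ℝ => ∏ i ∈ S, (t + (i : ℝ))) d x ∧
      |d| ≤ S.card * ∏ i ∈ S, (x + (i : ℝ)) := by
  classical
  induction S using Finset.induction_on with
  | empty =>
    refine ⟨by simp, 0, ?_, by simp⟩
    simpa using hasDerivAt_const x (1 : ℝ)
  | insert i S hi ih =>
    obtain ⟨h0, d, hd, hb⟩ := ih
    have hxi : 1 ≤ x + (i : ℝ) := by
      have : (0 : ℝ) ≤ i := by positivity
      linarith
    refine ⟨?_, 1 * (∏ j ∈ S, (x + (j : ℝ))) + (x + i) * d, ?_, ?_⟩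
    · rw [Finset.prod_insert hi]
      positivity
    · have h1 : HasDerivAt (fun t : ℝ => t + (i : ℝ)) 1 x := (hasDerivAt_id x).add_const _
      have h2 := h1.mul hd
      refine h2.congr_of_eventuallyEq (Filter.Eventually.of_forall fun t => ?_)
      simp only [Pi.mul_apply]
      rw [Finset.prod_insert hi]
    · rw [Finset.prod_insert hi, Finset.card_insert_of_notMem hi, one_mul]
      have h3 : |(∏ j ∈ S, (x + (j : ℝ))) + (x + i) * d| ≤
          (∏ j ∈ S, (x + (j : ℝ))) + (x + i) * |d| := by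
        refine (abs_add_le _ _).trans (le_of_eq ?_)
        rw [abs_of_pos h0, abs_mul, abs_of_pos (by linarith : (0 : ℝ) < x + i)]
      refine h3.trans ?_
      push_cast
      have h4 : (x + i) * |d| ≤ (x + i) * (S.card * ∏ i ∈ S, (x + (i : ℝ))) :=
        mul_le_mul_of_nonneg_left hb (by linarith)
      have h5 : (∏ j ∈ S, (x + (j : ℝ))) ≤ (x + i) * ∏ j ∈ S, (x + (j : ℝ)) := by
        nlinarith
      nlinarith

lemma wt_deriv (a b : ℕ) (hab : a ≤ b) {x : ℝ} (hx : 1 ≤ x) :
    |deriv (wt a b) x| ≤ (b + 1) * wt a b x := by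
  obtain ⟨hP, p, hp, hpb⟩ := prod_deriv (Finset.range a) hx
  obtain ⟨hQ, q, hq, hqb⟩ := prod_deriv (Finset.Icc a b) hx
  have hd : HasDerivAt (wt a b) _ x := hp.div hq hQ.ne'
  rw [hd.deriv]
  rw [Finset.card_range] at hpb
  rw [Nat.card_Icc] at hqb
  unfold wt
  obtain ⟨P, hP'⟩ : ∃ P, P = ∏ i ∈ Finset.range a, (x + (i : ℝ)) := ⟨_, rfl⟩
  obtain ⟨Q, hQ'⟩ : ∃ Q, Q = ∏ k ∈ Finset.Icc a b, (x + (k : ℝ)) := ⟨_, rfl⟩
  rw [← hP'] at hP hpb ⊢
  rw [← hQ'] at hQ hqb ⊢
  have hcast : ((b + 1 - a : ℕ) : ℝ) = b + 1 - a := by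
    rw [Nat.cast_sub (by omega)]
    push_cast
    ring
  rw [hcast] at hqb
  rw [abs_div, abs_of_pos (by positivity : 0 < Q ^ 2), div_le_iff₀ (by positivity)]
  have e : (b + 1) * (P / Q) * Q ^ 2 = (b + 1) * (P * Q) := by
    field_simp
  rw [e]
  have h1 : |p * Q - P * q| ≤ |p| * Q + P * |q| := by
    refine (abs_sub _ _).trans (le_of_eq ?_)
    rw [abs_mul, abs_mul, abs_of_pos hP, abs_of_pos hQ]
  have h2 : |p| * Q ≤ a * P * Q := mul_le_mul_of_nonneg_right hpb hQ.le
  have h3 : P * |q| ≤ P * ((b + 1 - a) * Q) := mul_le_mul_of_nonneg_left hqb hP.le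
  nlinarith

/-- size of a polynomial and its derivative -/
noncomputable def nn (f : ℝ[X]) (x : ℝ) : ℝ := |f.eval x| + |(derivative f).eval x|

lemma nn_nonneg (f : ℝ[X]) (x : ℝ) : 0 ≤ nn f x := add_nonneg (abs_nonneg _) (abs_nonneg _)

lemma nn_mul (f g : ℝ[X]) (x : ℝ) : nn (f * g) x ≤ nn f x * nn g x := by
  unfold nn
  rw [derivative_mul, eval_mul, eval_add, eval_mul, eval_mul, abs_mul]
  have h := abs_add_le (eval x (derivative f) * eval x g) (eval x f * eval x (derivative g))
  rw [abs_mul, abs_mul] at h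
  have h2 := mul_nonneg (abs_nonneg (eval x (derivative f))) (abs_nonneg (eval x (derivative g)))
  nlinarith

lemma nn_prod (S : Finset ℝ) (x : ℝ) : nn (∏ z ∈ S, (X - C z)) x ≤ ∏ u ∈ S, (|x - u| + 1) := by
  classical
  induction S using Finset.induction_on with
  | empty => simp [nn]
  | insert u S hu ih =>
    rw [Finset.prod_insert hu, Finset.prod_insert hu]
    refine (nn_mul _ _ _).trans ?_
    have h1 : nn (X - C u) x = |x - u| + 1 := by
      simp [nn]
    rw [h1]
    exact mul_le_mul_of_nonneg_left ih (by positivity)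

lemma nn_lag (Y : Finset ℝ) (y x : ℝ) : nn (lag Y y) x ≤ PY Y x := by
  unfold lag PY
  refine (nn_prod _ _).trans ?_
  by_cases hy : y ∈ Y
  · rw [← Finset.mul_prod_erase Y _ hy]
    have h1 : 0 ≤ ∏ u ∈ Y.erase y, (|x - u| + 1) := Finset.prod_nonneg fun u _ => by positivity
    have h2 := abs_nonneg (x - y)
    nlinarith
  · rw [Finset.erase_eq_of_notMem hy]

end Ent

open Ent in
theorem A_entry : S_entry := by
  intro a b ha hab α β Y y hy z hz s
  have hx : (1 : ℝ) ≤ (s : ℝ) + 1 := by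
    have : (0 : ℝ) ≤ s := by positivity
    linarith
  obtain ⟨x, hxe⟩ : ∃ x : ℝ, x = (s : ℝ) + 1 := ⟨_, rfl⟩
  unfold tm
  rw [← hxe] at hx ⊢
  obtain ⟨f, hf⟩ : ∃ f : ℝ[X], f = lag Y y * lag Y z := ⟨_, rfl⟩
  rw [← hf]
  have hw := wt_pos a b hx
  have hwd := wt_deriv a b hab hx
  have hN : nn f x ≤ PY Y x ^ 2 := by
    rw [hf, sq]
    refine (nn_mul _ _ _).trans ?_
    exact mul_le_mul (nn_lag Y y x) (nn_lag Y z x) (nn_nonneg _ _)
      ((nn_nonneg _ _).trans (nn_lag Y y x))
  rw [abs_mul, abs_of_pos (by positivity : (0 : ℝ) < (1 / 2) ^ (s + 1)), mul_assoc]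
  refine mul_le_mul_of_nonneg_left ?_ (by positivity)
  have h1 : |-α * (eval x f * wt a b x) + β * (eval x (derivative f) * wt a b x +
      eval x f * deriv (wt a b) x)| ≤ |α| * (|eval x f| * wt a b x) +
        |β| * (|eval x (derivative f)| * wt a b x + |eval x f| * ((b + 1) * wt a b x)) := by
    refine (abs_add_le _ _).trans ?_
    rw [abs_mul, abs_neg, abs_mul, abs_of_pos hw, abs_mul β]
    refine add_le_add le_rfl (mul_le_mul_of_nonneg_left ?_ (abs_nonneg _))
    refine (abs_add_le _ _).trans ?_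
    rw [abs_mul, abs_mul, abs_of_pos hw]
    exact add_le_add le_rfl (mul_le_mul_of_nonneg_left hwd (abs_nonneg _))
  refine h1.trans ?_
  have h2 : |α| * (|eval x f| * wt a b x) +
        |β| * (|eval x (derivative f)| * wt a b x + |eval x f| * ((b + 1) * wt a b x)) ≤
      (|α| + |β|) * (b + 2) * (wt a b x * nn f x) := by
    unfold nn
    have hb : (0 : ℝ) ≤ b := by positivity
    have g1 : |eval x f| * wt a b x ≤ (b + 2) * (wt a b x * (|eval x f| + |eval x (derivative f)|)) := by
      have k1 := mul_nonneg (abs_nonneg (eval x f)) hw.le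
      have k2 := mul_nonneg (abs_nonneg (eval x (derivative f))) hw.le
      nlinarith [mul_nonneg hb k1, mul_nonneg hb k2]
    have g2 : |eval x (derivative f)| * wt a b x + |eval x f| * ((b + 1) * wt a b x) ≤
        (b + 2) * (wt a b x * (|eval x f| + |eval x (derivative f)|)) := by
      have k1 := mul_nonneg (abs_nonneg (eval x f)) hw.le
      have k2 := mul_nonneg (abs_nonneg (eval x (derivative f))) hw.le
      nlinarith [mul_nonneg hb k1, mul_nonneg hb k2]
    have g3 := mul_le_mul_of_nonneg_left g1 (abs_nonneg α)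
    have g4 := mul_le_mul_of_nonneg_left g2 (abs_nonneg β)
    refine (add_le_add g3 g4).trans (le_of_eq ?_)
    ring
  refine h2.trans ?_
  exact mul_le_mul_of_nonneg_left (mul_le_mul_of_nonneg_left hN hw.le) (by positivity)

end Pool.Agent.TH844.DL
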